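import Mathlib
import Pool.Agent.H523R3.TransMain

/-!
# Simplicial 3-polytopes with transversal ratio close to `1/2`

Nested copies of `K_4`, glued along octahedral annuli, as frames of three height functions.
-/

set_option autoImplicit false

namespace Pool.Agent.TH373.Chain3

open Finset Pool.Agent.H523R3.Frames Pool.Agent.H523R3.Trans

/-- The three height functions in terms of block `b` and type `r` of a vertex `4 b + r`.
Types: `0` is `z₁`, `1` is `z₂`, `2` is `z₃`, `3` is `w`. -/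
def G (M : ℤ) (k : ℕ) (b : ℤ) (r : ℕ) : ℤ :=
  if k = 0 then (if r = 2 then 3 * b else if r = 1 then 3 * b + 1 else
    if r = 3 then 3 * b + 2 else M - b)
  else if k = 1 then (if r = 0 then 3 * b else if r = 2 then 3 * b + 1 else
    if r = 3 then 3 * b + 2 else M - b)
  else (if r = 1 then 2 * b else if r = 0 then 2 * b + 1 else
    if r = 3 then M - 2 * b - 1 else M - 2 * b)

/-- the height functions on `Fin (4 * K)` -/
def F (K : ℕ) : Fin 3 → Fin (4 * K) → ℤ := fun k v =>
  G (5 * K) k (((v : ℕ) / 4 : ℕ) : ℤ) ((v : ℕ) % 4)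

/-- the vertex of type `r` in block `b` -/
def vx {K : ℕ} (b r : ℕ) (h : 4 * b + r < 4 * K) : Fin (4 * K) := ⟨4 * b + r, h⟩

lemma F_vx {K : ℕ} (k : Fin 3) (b r : ℕ) (hr : r < 4) (h : 4 * b + r < 4 * K) :
    F K k (vx b r h) = G (5 * K) k b r := by
  unfold F vx
  have h1 : (4 * b + r) / 4 = b := by omega
  have h2 : (4 * b + r) % 4 = r := by omega
  simp only [h1, h2]

lemma exists_vx {K : ℕ} (v : Fin (4 * K)) : ∃ b r : ℕ, ∃ h : 4 * b + r < 4 * K, b < K ∧ r < 4 ∧
    v = vx b r h := by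
  have hv := v.isLt
  refine ⟨(v : ℕ) / 4, (v : ℕ) % 4, by omega, by omega, by omega, ?_⟩
  apply Fin.ext
  show (v : ℕ) = 4 * ((v : ℕ) / 4) + (v : ℕ) % 4
  omega

/-- a triple of vertices `(b₀, r₀), (b₁, r₁), (b₂, r₂)` is a frame -/
def IsFr (K : ℕ) (b : Fin 3 → ℕ) (r : Fin 3 → ℕ) : Prop :=
  (∀ k l : Fin 3, l ≠ k → G (5 * K) k (b l) (r l) < G (5 * K) k (b k) (r k)) ∧
    ∀ (c s : ℕ), c < K → s < 4 → (∀ k, ¬ (c = b k ∧ s = r k)) →
      ∃ k : Fin 3, G (5 * K) k (b k) (r k) < G (5 * K) k c s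

lemma frame_of {K : ℕ} {b r : Fin 3 → ℕ} (h : IsFr K b r) (hb : ∀ k, b k < K) (hr : ∀ k, r k < 4)
    {W : Finset (Fin (4 * K))}
    (hW : ∀ k, vx (b k) (r k) (by have := hb k; have := hr k; omega) ∈ W) :
    ∃ a : Fin 3 → Fin (4 * K), (∀ k, a k ∈ W) ∧ (∀ k l, l ≠ k → F K k (a l) < F K k (a k)) ∧
      ∀ v, (∀ k, v ≠ a k) → ∃ k, F K k (a k) < F K k v := by
  have hlt : ∀ k, 4 * b k + r k < 4 * K := fun k => by
    have := hb k; have := hr k; omega
  refine ⟨fun k => vx (b k) (r k) (hlt k), hW, ?_, ?_⟩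
  · intro k l hkl
    rw [F_vx _ _ _ (hr _), F_vx _ _ _ (hr _)]
    exact h.1 k l hkl
  · intro v hv
    obtain ⟨c, s, hcs, hc, hs, rfl⟩ := exists_vx v
    obtain ⟨k, hk⟩ := h.2 c s hc hs (by
      rintro k ⟨h1, h2⟩
      apply hv k
      apply Fin.ext
      show 4 * c + s = 4 * b k + r k
      rw [h1, h2])
    refine ⟨k, ?_⟩
    rw [F_vx _ _ _ (hr _), F_vx _ _ _ hs]
    exact hk

lemma fr1 {K b : ℕ} (hb : b < K) : IsFr K ![b, b, b] ![3, 1, 2] := by
  constructor
  · intro k l hkl
    fin_cases k <;> fin_cases l <;> simp [G] at hkl ⊢ <;> omega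
  · intro c s hc hs hne
    by_contra hcon
    push Not at hcon
    have h0 := hcon 0
    have h1 := hcon 1
    have h2 := hcon 2
    have n0 := hne 0
    have n1 := hne 1
    have n2 := hne 2
    interval_cases s <;> simp [G] at h0 h1 h2 n0 n1 n2 <;> omega

lemma fr2 {K b : ℕ} (hb : b < K) : IsFr K ![b, b, b] ![0, 3, 2] := by
  constructor
  · intro k l hkl
    fin_cases k <;> fin_cases l <;> simp [G] at hkl ⊢ <;> omega
  · intro c s hc hs hne
    by_contra hcon
    push Not at hcon
    have h0 := hcon 0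
    have h1 := hcon 1
    have h2 := hcon 2
    have n0 := hne 0
    have n1 := hne 1
    have n2 := hne 2
    interval_cases s <;> simp [G] at h0 h1 h2 n0 n1 n2 <;> omega

lemma fr3 {K b : ℕ} (hb : b + 1 < K) : IsFr K ![b + 1, b, b] ![2, 1, 3] := by
  constructor
  · intro k l hkl
    fin_cases k <;> fin_cases l <;> simp [G] at hkl ⊢ <;> omega
  · intro c s hc hs hne
    by_contra hcon
    push Not at hcon
    have h0 := hcon 0
    have h1 := hcon 1
    have h2 := hcon 2
    have n0 := hne 0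
    have n1 := hne 1
    have n2 := hne 2
    interval_cases s <;> simp [G] at h0 h1 h2 n0 n1 n2 <;> omega

lemma fr4 {K b : ℕ} (hb : b + 1 < K) : IsFr K ![b, b + 1, b] ![0, 0, 3] := by
  constructor
  · intro k l hkl
    fin_cases k <;> fin_cases l <;> simp [G] at hkl ⊢ <;> omega
  · intro c s hc hs hne
    by_contra hcon
    push Not at hcon
    have h0 := hcon 0
    have h1 := hcon 1
    have h2 := hcon 2
    have n0 := hne 0
    have n1 := hne 1
    have n2 := hne 2
    interval_cases s <;> simp [G] at h0 h1 h2 n0 n1 n2 <;> omega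

lemma fr5 {K b : ℕ} (hb : b + 1 < K) : IsFr K ![b, b, b + 1] ![0, 1, 1] := by
  constructor
  · intro k l hkl
    fin_cases k <;> fin_cases l <;> simp [G] at hkl ⊢ <;> omega
  · intro c s hc hs hne
    by_contra hcon
    push Not at hcon
    have h0 := hcon 0
    have h1 := hcon 1
    have h2 := hcon 2
    have n0 := hne 0
    have n1 := hne 1
    have n2 := hne 2
    interval_cases s <;> simp [G] at h0 h1 h2 n0 n1 n2 <;> omega

lemma fr6 {K b : ℕ} (hb : b + 1 < K) : IsFr K ![b, b + 1, b + 1] ![0, 1, 0] := by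
  constructor
  · intro k l hkl
    fin_cases k <;> fin_cases l <;> simp [G] at hkl ⊢ <;> omega
  · intro c s hc hs hne
    by_contra hcon
    push Not at hcon
    have h0 := hcon 0
    have h1 := hcon 1
    have h2 := hcon 2
    have n0 := hne 0
    have n1 := hne 1
    have n2 := hne 2
    interval_cases s <;> simp [G] at h0 h1 h2 n0 n1 n2 <;> omega

lemma fr7 {K b : ℕ} (hb : b + 1 < K) : IsFr K ![b + 1, b, b + 1] ![1, 1, 2] := by
  constructor
  · intro k l hkl
    fin_cases k <;> fin_cases l <;> simp [G] at hkl ⊢ <;> omega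
  · intro c s hc hs hne
    by_contra hcon
    push Not at hcon
    have h0 := hcon 0
    have h1 := hcon 1
    have h2 := hcon 2
    have n0 := hne 0
    have n1 := hne 1
    have n2 := hne 2
    interval_cases s <;> simp [G] at h0 h1 h2 n0 n1 n2 <;> omega

lemma fr8 {K b : ℕ} (hb : b + 1 < K) : IsFr K ![b + 1, b + 1, b] ![0, 2, 3] := by
  constructor
  · intro k l hkl
    fin_cases k <;> fin_cases l <;> simp [G] at hkl ⊢ <;> omega
  · intro c s hc hs hne
    by_contra hcon
    push Not at hcon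
    have h0 := hcon 0
    have h1 := hcon 1
    have h2 := hcon 2
    have n0 := hne 0
    have n1 := hne 1
    have n2 := hne 2
    interval_cases s <;> simp [G] at h0 h1 h2 n0 n1 n2 <;> omega

/-- the sets containing no frame -/
def NoFrame {K : ℕ} (W : Finset (Fin (4 * K))) : Prop :=
  ¬ ∃ a : Fin 3 → Fin (4 * K), (∀ k, a k ∈ W) ∧ (∀ k l, l ≠ k → F K k (a l) < F K k (a k)) ∧
      ∀ v, (∀ k, v ≠ a k) → ∃ k, F K k (a k) < F K k v

/-- membership of the vertex `m` in `W`, as a number -/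
noncomputable def ct {K : ℕ} (W : Finset (Fin (4 * K))) (m : ℕ) : ℕ := by
  classical
  exact if ∃ h : m < 4 * K, (⟨m, h⟩ : Fin (4 * K)) ∈ W then 1 else 0

lemma ct_le {K : ℕ} (W : Finset (Fin (4 * K))) (m : ℕ) : ct W m ≤ 1 := by
  unfold ct; split_ifs <;> omega

lemma ct_pos {K : ℕ} {W : Finset (Fin (4 * K))} {m : ℕ} (h : ct W m = 1) :
    ∃ h : m < 4 * K, (⟨m, h⟩ : Fin (4 * K)) ∈ W := by
  unfold ct at h; split_ifs at h with h1
  exact h1

/-- in a frame-free set no frame is complete -/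
lemma sum_le {K : ℕ} {W : Finset (Fin (4 * K))} (hW : NoFrame W) {b r : Fin 3 → ℕ}
    (h : IsFr K b r) (hb : ∀ k, b k < K) (hr : ∀ k, r k < 4) :
    ct W (4 * b 0 + r 0) + ct W (4 * b 1 + r 1) + ct W (4 * b 2 + r 2) ≤ 2 := by
  by_contra hcon
  have h0 := ct_le W (4 * b 0 + r 0)
  have h1 := ct_le W (4 * b 1 + r 1)
  have h2 := ct_le W (4 * b 2 + r 2)
  obtain ⟨g0, e0⟩ := ct_pos (show ct W (4 * b 0 + r 0) = 1 by omega)
  obtain ⟨g1, e1⟩ := ct_pos (show ct W (4 * b 1 + r 1) = 1 by omega)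
  obtain ⟨g2, e2⟩ := ct_pos (show ct W (4 * b 2 + r 2) = 1 by omega)
  apply hW
  apply frame_of h hb hr
  intro k
  fin_cases k
  · exact e0
  · exact e1
  · exact e2

/-- the number of elements of `W` in the first `m` blocks -/
noncomputable def cum {K : ℕ} (W : Finset (Fin (4 * K))) (m : ℕ) : ℕ :=
  ∑ i ∈ Finset.range (4 * m), ct W i

lemma cum_succ {K : ℕ} (W : Finset (Fin (4 * K))) (m : ℕ) :
    cum W (m + 1) = cum W m + ct W (4 * m + 0) + ct W (4 * m + 1) + ct W (4 * m + 2) +
      ct W (4 * m + 3) := by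
  unfold cum
  rw [show 4 * (m + 1) = 4 * m + 1 + 1 + 1 + 1 by ring, Finset.sum_range_succ,
    Finset.sum_range_succ, Finset.sum_range_succ, Finset.sum_range_succ]
  simp only [Nat.add_zero]

lemma cum_inv {K : ℕ} {W : Finset (Fin (4 * K))} (hW : NoFrame W) (m : ℕ) (hm : m < K) :
    cum W (m + 1) ≤ 2 * (m + 1) + 2 ∧
    (ct W (4 * m + 0) + ct W (4 * m + 1) + ct W (4 * m + 3) ≤ 2 →
      cum W (m + 1) ≤ 2 * (m + 1) + 1) ∧
    (ct W (4 * m + 0) + ct W (4 * m + 1) + ct W (4 * m + 3) = 0 →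
      cum W (m + 1) ≤ 2 * (m + 1)) := by
  induction m with
  | zero =>
    have e := cum_succ W 0
    have e0 : cum W 0 = 0 := by simp [cum]
    have c0 := ct_le W (4 * 0 + 0)
    have c1 := ct_le W (4 * 0 + 1)
    have c2 := ct_le W (4 * 0 + 2)
    have c3 := ct_le W (4 * 0 + 3)
    have s1 := sum_le hW (fr1 hm) (by intro k; fin_cases k <;> exact hm)
      (by intro k; fin_cases k <;> simp)
    simp only [Matrix.cons_val_zero, Matrix.cons_val_one, Matrix.cons_val] at s1
    omega
  | succ m ih =>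
    obtain ⟨i1, i2, i3⟩ := ih (by omega)
    have e := cum_succ W (m + 1)
    have c0 := ct_le W (4 * (m + 1) + 0)
    have c1 := ct_le W (4 * (m + 1) + 1)
    have c2 := ct_le W (4 * (m + 1) + 2)
    have c3 := ct_le W (4 * (m + 1) + 3)
    have d0 := ct_le W (4 * m + 0)
    have d1 := ct_le W (4 * m + 1)
    have d3 := ct_le W (4 * m + 3)
    have hm' : m < K := by omega
    have s1 := sum_le hW (fr1 hm) (by intro k; fin_cases k <;> exact hm)
      (by intro k; fin_cases k <;> simp)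
    have s2 := sum_le hW (fr2 hm) (by intro k; fin_cases k <;> exact hm)
      (by intro k; fin_cases k <;> simp)
    have s3 := sum_le hW (fr3 hm) (by intro k; fin_cases k <;> simp <;> omega)
      (by intro k; fin_cases k <;> simp)
    have s4 := sum_le hW (fr4 hm) (by intro k; fin_cases k <;> simp <;> omega)
      (by intro k; fin_cases k <;> simp)
    have s5 := sum_le hW (fr5 hm) (by intro k; fin_cases k <;> simp <;> omega)
      (by intro k; fin_cases k <;> simp)
    have s6 := sum_le hW (fr6 hm) (by intro k; fin_cases k <;> simp <;> omega)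
      (by intro k; fin_cases k <;> simp)
    have s7 := sum_le hW (fr7 hm) (by intro k; fin_cases k <;> simp <;> omega)
      (by intro k; fin_cases k <;> simp)
    have s8 := sum_le hW (fr8 hm) (by intro k; fin_cases k <;> simp <;> omega)
      (by intro k; fin_cases k <;> simp)
    simp only [Matrix.cons_val_zero, Matrix.cons_val_one, Matrix.cons_val] at s1 s2 s3 s4 s5 s6 s7 s8
    generalize cum W (m + 1) = f at *
    generalize cum W (m + 1 + 1) = f' at *
    generalize ct W (4 * (m + 1) + 0) = z1 at *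
    generalize ct W (4 * (m + 1) + 1) = z2 at *
    generalize ct W (4 * (m + 1) + 2) = z3 at *
    generalize ct W (4 * (m + 1) + 3) = w at *
    generalize ct W (4 * m + 0) = x1 at *
    generalize ct W (4 * m + 1) = x2 at *
    generalize ct W (4 * m + 3) = x3 at *
    refine ⟨?_, ?_, ?_⟩
    · interval_cases x1 <;> interval_cases x2 <;> interval_cases x3 <;> omega
    · intro hh
      interval_cases x1 <;> interval_cases x2 <;> interval_cases x3 <;> omega
    · intro hh
      interval_cases x1 <;> interval_cases x2 <;> interval_cases x3 <;> omega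

lemma card_eq_cum {K : ℕ} (W : Finset (Fin (4 * K))) : W.card = cum W K := by
  classical
  unfold cum
  rw [← Fin.sum_univ_eq_sum_range (fun i => ct W i) (4 * K), Finset.card_eq_sum_ones,
    ← Finset.sum_filter_add_sum_filter_not Finset.univ (fun i => i ∈ W)]
  have h1 : ∑ i ∈ Finset.univ.filter (fun i => i ∉ W), ct W (i : ℕ) = 0 := by
    apply Finset.sum_eq_zero
    intro i hi
    simp only [Finset.mem_filter, Finset.mem_univ, true_and] at hi
    unfold ct
    rw [if_neg]
    rintro ⟨h, h2⟩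
    exact hi h2
  have h2 : ∑ i ∈ Finset.univ.filter (fun i => i ∈ W), ct W (i : ℕ) = ∑ i ∈ W, 1 := by
    rw [Finset.filter_mem_eq_inter, Finset.univ_inter]
    apply Finset.sum_congr rfl
    intro i hi
    unfold ct
    rw [if_pos ⟨i.isLt, hi⟩]
  rw [h1, h2, add_zero]

/-- a frame-free set has at most `2 K + 2` elements -/
theorem card_le {K : ℕ} (hK : 0 < K) {W : Finset (Fin (4 * K))} (hW : NoFrame W) :
    W.card ≤ 2 * K + 2 := by
  obtain ⟨m, rfl⟩ : ∃ m, K = m + 1 := ⟨K - 1, by omega⟩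
  rw [card_eq_cum]
  exact (cum_inv hW m (by omega)).1

lemma anti {K : ℕ} : ∀ i j : Fin (4 * K), i ≠ j → ∃ k, F K k i < F K k j := by
  intro i j hij
  obtain ⟨b, r, hbr, hb, hr, rfl⟩ := exists_vx i
  obtain ⟨c, s, hcs, hc, hs, rfl⟩ := exists_vx j
  have hne : ¬ (b = c ∧ r = s) := by
    rintro ⟨rfl, rfl⟩
    exact hij rfl
  by_contra hcon
  push Not at hcon
  have h0 := hcon 0
  have h1 := hcon 1
  have h2 := hcon 2
  rw [F_vx _ _ _ hr, F_vx _ _ _ hs] at h0 h1 h2
  interval_cases r <;> interval_cases s <;> simp [G] at h0 h1 h2 hne <;> omega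

/-- Height functions without frames in large sets give simplicial polytopes with large
transversal number. -/
theorem polytope_of_frames {d n : ℕ} (hd : 0 < d) (hnd : d + 1 ≤ n) (F : Fin d → Fin n → ℤ)
    (hanti : ∀ i j, i ≠ j → ∃ k, F k i < F k j) (m : ℕ)
    (hfr : ∀ W : Finset (Fin n), m < W.card →
      ∃ a : Fin d → Fin n, (∀ k, a k ∈ W) ∧ (∀ k l, l ≠ k → F k (a l) < F k (a k)) ∧
        ∀ v, (∀ k, v ≠ a k) → ∃ k, F k (a k) < F k v) :
    ∃ p : Fin n → E d, IsSimplicialPolytope d p ∧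
      ((n : ℝ) - m) / n ≤ transversalRatio (boundary p) := by
  classical
  obtain ⟨s, hs, hF, hgp⟩ := exists_paramD hd F
  have hp := isSimplicialPolytope_pt hd hnd F hanti hs hF hgp
  refine ⟨pt F s, hp, ?_⟩
  have hn0 : 0 < n := by omega
  have hΔ := isComplex_boundary hd hp
  have hne : {k | ∃ W, IsTransversal (boundary (pt F s)) W ∧ W.card = k}.Nonempty := by
    refine ⟨_, Finset.univ, ?_, rfl⟩
    intro t ht
    have hne : t.Nonempty := by
      by_contra hcon
      rw [Finset.not_nonempty_iff_eq_empty] at hcon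
      have := ht.2 {⟨0, hn0⟩} (hΔ.vert _) (by rw [hcon]; exact Finset.empty_subset _)
      rw [hcon] at this
      exact Finset.singleton_ne_empty _ this
    obtain ⟨v, hv⟩ := hne
    exact ⟨v, hv, Finset.mem_univ v⟩
  obtain ⟨W, hW, hWcard⟩ := Nat.sInf_mem hne
  have hWc : (Wᶜ).card ≤ m := by
    by_contra hcon
    push Not at hcon
    obtain ⟨a, haW, ha, hv⟩ := hfr Wᶜ hcon
    obtain ⟨v, hv1, hv2⟩ := hW _ (isFacet_of_frame hd F hs hF hp a ha hv)
    simp only [Finset.mem_image, Finset.mem_univ, true_and] at hv1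
    obtain ⟨k, rfl⟩ := hv1
    exact (Finset.mem_compl.1 (haW k)) hv2
  have hcompl : (Wᶜ).card + W.card = n := by
    rw [Finset.card_compl, Fintype.card_fin]
    have : W.card ≤ Fintype.card (Fin n) := Finset.card_le_univ W
    rw [Fintype.card_fin] at this
    omega
  have hnR : (0 : ℝ) < n := by exact_mod_cast hn0
  have h2 : ((Wᶜ).card : ℝ) + W.card = n := by exact_mod_cast hcompl
  have h3 : ((Wᶜ).card : ℝ) ≤ m := by exact_mod_cast hWc
  unfold transversalRatio transversalNumber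
  rw [← hWcard]
  apply div_le_div_of_nonneg_right _ hnR.le
  linarith

/-- Simplicial `3`-polytopes with `4 K` vertices and transversal ratio at least `1/2 - 1/(2K)`. -/
theorem exists_polytope3 (K : ℕ) (hK : 0 < K) : ∃ p : Fin (4 * K) → E 3,
    IsSimplicialPolytope 3 p ∧ 1 / 2 - 1 / (2 * (K : ℝ)) ≤ transversalRatio (boundary p) := by
  obtain ⟨p, hp, h⟩ := polytope_of_frames (by norm_num : 0 < 3) (by omega) (F K) anti (2 * K + 2)
    (by
      intro W hW
      by_contra hcon
      have := card_le hK (W := W) hcon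
      omega)
  refine ⟨p, hp, le_trans (le_of_eq ?_) h⟩
  have hKR : (K : ℝ) ≠ 0 := by exact_mod_cast hK.ne'
  push_cast
  field_simp
  ring

/-- a lower bound for a limit superior of suprema -/
lemma half_le_limsup (A : ℕ → Set ℝ) (hle : ∀ n, ∀ t ∈ A n, t ≤ 1)
    (hge : ∀ K : ℕ, 0 < K → ∃ t ∈ A (4 * K), 1 / 2 - 1 / (2 * (K : ℝ)) ≤ t) :
    1 / 2 ≤ Filter.limsup (fun n => sSup (A n)) Filter.atTop := by
  have hu : ∀ n, sSup (A n) ≤ 1 := fun n => Real.sSup_le (hle n) zero_le_one
  have hbdd : Filter.IsBoundedUnder (· ≤ ·) Filter.atTop (fun n => sSup (A n)) :=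
    Filter.isBoundedUnder_of ⟨1, hu⟩
  apply le_of_forall_pos_le_add
  intro ε hε
  have h1 : 1 / 2 - ε ≤ Filter.limsup (fun n => sSup (A n)) Filter.atTop := by
    apply Filter.le_limsup_of_frequently_le _ hbdd
    rw [Filter.frequently_atTop]
    intro N
    obtain ⟨q, hq⟩ := exists_nat_gt (1 / ε)
    have hqpos : (0 : ℝ) < q := lt_trans (by positivity) hq
    have hq0 : 0 < q := by exact_mod_cast hqpos
    obtain ⟨t, ht, h2⟩ := hge (N + q) (by omega)
    refine ⟨4 * (N + q), by omega, ?_⟩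
    refine le_trans ?_ (h2.trans (le_csSup ⟨1, fun x hx => hle _ x hx⟩ ht))
    have h3 : 1 / (2 * ((N + q : ℕ) : ℝ)) ≤ ε := by
      rw [div_le_iff₀ (by positivity)]
      rw [div_lt_iff₀ hε] at hq
      push_cast
      have : (0 : ℝ) ≤ N := by positivity
      nlinarith
    linarith
  linarith

theorem half_le_tauP3 : 1 / 2 ≤ tauP 3 := by
  apply half_le_limsup
  · rintro n t ⟨p, hp, rfl⟩
    exact transversalRatio_le_one (isComplex_boundary (by omega) hp)
  · intro K hK
    obtain ⟨p, hp, h⟩ := exists_polytope3 K hK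
    exact ⟨_, ⟨p, hp, rfl⟩, h⟩

theorem half_le_tauS3 : 1 / 2 ≤ tauS 3 := by
  apply half_le_limsup
  · rintro n t ⟨Δ, hΔ, rfl⟩
    exact transversalRatio_le_one hΔ.1
  · intro K hK
    obtain ⟨p, hp, h⟩ := exists_polytope3 K hK
    exact ⟨_, ⟨boundary p, isSimplicialSphere_boundary (by omega) hp, rfl⟩, h⟩

end Pool.Agent.TH373.Chain3
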