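import Mathlib
import Pool.Agent.H523R3.TransMain

/-!
# One-dimensional spheres have transversal ratio at most `1/2 + 1/(2n)`
-/

set_option autoImplicit false

namespace Pool.Agent.TH373.Sphere1

open Finset Pool.Agent.H523R3.Trans

/-- Removing a point of the circle: a continuous injective real function on the rest. -/
lemma exists_coord (P : Metric.sphere (0 : E 2) 1) :
    ∃ g : Metric.sphere (0 : E 2) 1 → ℝ, ContinuousOn g {P}ᶜ ∧ Set.InjOn g {P}ᶜ := by
  have : Fact (Module.finrank ℝ (E 2) = 1 + 1) := ⟨by simp [E]⟩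
  refine ⟨fun x => (stereographic' 1 P x) 0, ?_, ?_⟩
  · have h1 := (stereographic' 1 P).continuousOn
    rw [stereographic'_source] at h1
    have h2 : Continuous (fun y : EuclideanSpace ℝ (Fin 1) => y 0) := by fun_prop
    exact h2.comp_continuousOn h1
  · intro x hx y hy hxy
    have h1 := (stereographic' 1 P).injOn
    rw [stereographic'_source] at h1
    apply h1 hx hy
    ext i
    rw [Subsingleton.elim i 0]
    exact hxy

/-- the vertex `v` of the realisation -/
noncomputable def dl {n : ℕ} (v : Fin n) : Fin n → ℝ := Pi.single v 1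

lemma dl_mem {n : ℕ} {Δ : Set (Finset (Fin n))} (hΔ : IsComplex Δ) (v : Fin n) :
    dl v ∈ realization Δ := by
  classical
  refine ⟨?_, ?_, ?_⟩
  · intro i
    unfold dl
    by_cases h : i = v
    · subst h; simp
    · rw [Pi.single_eq_of_ne h]
  · unfold dl; simp
  · have : Finset.univ.filter (fun i => dl v i ≠ 0) = {v} := by
      ext i
      rw [Finset.mem_filter, Finset.mem_singleton]
      constructor
      · rintro ⟨_, h⟩
        by_contra hne
        exact h (Pi.single_eq_of_ne hne _)
      · rintro rfl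
        refine ⟨Finset.mem_univ _, ?_⟩
        unfold dl
        rw [Pi.single_eq_same]
        exact one_ne_zero
    rw [this]
    exact hΔ.vert v

/-- the vertices as points of the realisation -/
noncomputable def dp {n : ℕ} {Δ : Set (Finset (Fin n))} (hΔ : IsComplex Δ) (v : Fin n) :
    realization Δ := ⟨dl v, dl_mem hΔ v⟩

lemma dp_injective {n : ℕ} {Δ : Set (Finset (Fin n))} (hΔ : IsComplex Δ) :
    Function.Injective (dp hΔ) := by
  intro u v huv
  by_contra hne
  have h1 : dl u = dl v := congrArg Subtype.val huv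
  have h2 := congrFun h1 u
  unfold dl at h2
  rw [Pi.single_eq_same, Pi.single_eq_of_ne hne] at h2
  exact one_ne_zero h2

/-- the points of the segment between two adjacent vertices -/
lemma seg_mem {n : ℕ} {Δ : Set (Finset (Fin n))} (hΔ : IsComplex Δ) {u v : Fin n}
    (huv : ({u, v} : Finset (Fin n)) ∈ Δ) (t : unitInterval) :
    (fun i => (1 - (t : ℝ)) * dl u i + t * dl v i) ∈ realization Δ := by
  classical
  have ht0 := t.2.1
  have ht1 := t.2.2
  have hu := dl_mem hΔ u
  have hv := dl_mem hΔ v
  refine ⟨?_, ?_, ?_⟩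
  · intro i
    have h1 := hu.1 i
    have h2 := hv.1 i
    have h3 : 0 ≤ 1 - (t : ℝ) := by linarith
    positivity
  · rw [Finset.sum_add_distrib, ← Finset.mul_sum, ← Finset.mul_sum, hu.2.1, hv.2.1]
    ring
  · apply hΔ.down _ huv
    intro i hi
    simp only [Finset.mem_filter, Finset.mem_univ, true_and] at hi
    simp only [Finset.mem_insert, Finset.mem_singleton]
    by_contra hcon
    push Not at hcon
    apply hi
    unfold dl
    rw [Pi.single_eq_of_ne hcon.1, Pi.single_eq_of_ne hcon.2]
    ring

/-- an edge gives a preconnected set containing its ends and no other vertex -/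
lemma exists_conn {n : ℕ} {Δ : Set (Finset (Fin n))} (hΔ : IsComplex Δ) {u v : Fin n}
    (huv : ({u, v} : Finset (Fin n)) ∈ Δ) :
    ∃ C : Set (realization Δ), IsPreconnected C ∧ dp hΔ u ∈ C ∧ dp hΔ v ∈ C ∧
      ∀ w, w ≠ u → w ≠ v → dp hΔ w ∉ C := by
  classical
  let γ : unitInterval → realization Δ := fun t =>
    ⟨fun i => (1 - (t : ℝ)) * dl u i + t * dl v i, seg_mem hΔ huv t⟩
  have hγ : Continuous γ := by
    apply Continuous.subtype_mk
    apply continuous_pi
    intro i
    fun_prop
  refine ⟨Set.range γ, isPreconnected_range hγ, ⟨0, ?_⟩, ⟨1, ?_⟩, ?_⟩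
  · apply Subtype.ext
    funext i
    simp [γ, dp]
  · apply Subtype.ext
    funext i
    simp [γ, dp]
  · rintro w hwu hwv ⟨t, ht⟩
    have h1 : (1 - (t : ℝ)) * dl u w + t * dl v w = dl w w := by
      have := congrArg (fun x : realization Δ => (x : Fin n → ℝ) w) ht
      exact this
    unfold dl at h1
    rw [Pi.single_eq_of_ne hwu, Pi.single_eq_of_ne hwv, Pi.single_eq_same] at h1
    norm_num at h1

/-- no vertex lies strictly between the ends of an edge -/
lemma no_between {n : ℕ} {Δ : Set (Finset (Fin n))} (hΔ : IsComplex Δ) (v0 : Fin n)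
    (g : realization Δ → ℝ) (hg : ContinuousOn g {dp hΔ v0}ᶜ) (hgi : Set.InjOn g {dp hΔ v0}ᶜ)
    {u v w : Fin n} (huv : ({u, v} : Finset (Fin n)) ∈ Δ) (hu : u ≠ v0) (hv : v ≠ v0)
    (hw : w ≠ v0) (h1 : g (dp hΔ u) < g (dp hΔ w)) (h2 : g (dp hΔ w) < g (dp hΔ v)) : False := by
  obtain ⟨C, hC, huC, hvC, hwC⟩ := exists_conn hΔ huv
  have hsub : C ⊆ {dp hΔ v0}ᶜ := by
    intro x hx hx0
    rw [Set.mem_singleton_iff] at hx0
    subst hx0
    exact hwC v0 hu.symm hv.symm hx
  have hpre := (hC.image g (hg.mono hsub)).ordConnected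
  have hmem : g (dp hΔ w) ∈ g '' C :=
    hpre.out ⟨_, huC, rfl⟩ ⟨_, hvC, rfl⟩ ⟨h1.le, h2.le⟩
  obtain ⟨x, hx, hxw⟩ := hmem
  have hne : dp hΔ w ∈ ({dp hΔ v0}ᶜ : Set _) := by
    intro h
    exact hw (dp_injective hΔ (Set.mem_singleton_iff.1 h))
  have := hgi (hsub hx) hne hxw
  subst this
  refine hwC w ?_ ?_ hx
  · rintro rfl; exact lt_irrefl _ h1
  · rintro rfl; exact lt_irrefl _ h2

/-- the realisation of a simplicial `1`-sphere is preconnected -/
lemma preconnected {n : ℕ} {Δ : Set (Finset (Fin n))}
    (φ : realization Δ ≃ₜ Metric.sphere (0 : E 2) 1) :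
    PreconnectedSpace (realization Δ) := by
  have h1 : IsPreconnected (Metric.sphere (0 : E 2) 1) := by
    apply isPreconnected_sphere
    rw [← Module.finrank_eq_rank]
    simp [E]
  have h2 : PreconnectedSpace (Metric.sphere (0 : E 2) 1) :=
    isPreconnected_iff_preconnectedSpace.1 h1
  constructor
  rw [← φ.symm.surjective.range_eq]
  exact isPreconnected_range φ.symm.continuous

/-- no vertex is a facet -/
lemma facet_card {n : ℕ} (hn : 2 ≤ n) {Δ : Set (Finset (Fin n))} (hΔ : IsComplex Δ)
    (φ : realization Δ ≃ₜ Metric.sphere (0 : E 2) 1) (v : Fin n) : ¬ IsFacet Δ {v} := by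
  classical
  intro hf
  have hpc := preconnected φ
  have hval : ∀ x : realization Δ, (x : Fin n → ℝ) v ≠ 0 → x = dp hΔ v := by
    intro x hx
    have h1 : Finset.univ.filter (fun i => (x : Fin n → ℝ) i ≠ 0) = {v} := by
      apply hf.2 _ x.2.2.2
      intro i hi
      rw [Finset.mem_singleton] at hi
      subst hi
      exact Finset.mem_filter.2 ⟨Finset.mem_univ _, hx⟩
    have h2 : ∀ i, i ≠ v → (x : Fin n → ℝ) i = 0 := by
      intro i hi
      by_contra hne
      have : i ∈ Finset.univ.filter (fun i => (x : Fin n → ℝ) i ≠ 0) :=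
        Finset.mem_filter.2 ⟨Finset.mem_univ _, hne⟩
      rw [h1, Finset.mem_singleton] at this
      exact hi this
    apply Subtype.ext
    funext i
    by_cases hi : i = v
    · subst hi
      have h3 := x.2.2.1
      rw [Finset.sum_eq_single i (fun j _ hj => h2 j hj)
        (fun h => absurd (Finset.mem_univ _) h)] at h3
      rw [h3]
      show (1 : ℝ) = dl i i
      unfold dl
      rw [Pi.single_eq_same]
    · rw [h2 i hi]
      show (0 : ℝ) = dl v i
      unfold dl
      rw [Pi.single_eq_of_ne hi]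
  have hopen : IsOpen ({dp hΔ v} : Set (realization Δ)) := by
    have h1 : ({dp hΔ v} : Set (realization Δ)) =
        (fun x : realization Δ => (x : Fin n → ℝ) v) ⁻¹' {0}ᶜ := by
      ext x
      simp only [Set.mem_singleton_iff, Set.mem_preimage, Set.mem_compl_iff]
      constructor
      · rintro rfl
        show ¬ dl v v = 0
        unfold dl
        rw [Pi.single_eq_same]
        exact one_ne_zero
      · exact hval x
    rw [h1]
    apply IsOpen.preimage
    · exact (continuous_apply v).comp continuous_subtype_val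
    · exact isOpen_compl_singleton
  have hclopen : IsClopen ({dp hΔ v} : Set (realization Δ)) := ⟨isClosed_singleton, hopen⟩
  rcases isClopen_iff.1 hclopen with h | h
  · exact Set.singleton_ne_empty _ h
  · obtain ⟨u, hu⟩ : ∃ u : Fin n, u ≠ v := by
      have : Nontrivial (Fin n) := Fin.nontrivial_iff_two_le.2 hn
      exact exists_ne v
    have : dp hΔ u ∈ ({dp hΔ v} : Set (realization Δ)) := by rw [h]; exact Set.mem_univ _
    exact hu (dp_injective hΔ (Set.mem_singleton_iff.1 this))

/-- A simplicial `1`-sphere with `n ≥ 2` vertices has a transversal with at most `(n + 1)/2`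
vertices. -/
theorem exists_transversal {n : ℕ} (hn : 2 ≤ n) {Δ : Set (Finset (Fin n))}
    (hΔ : IsSimplicialSphere 2 Δ) : ∃ W, IsTransversal Δ W ∧ 2 * W.card ≤ n + 1 := by
  classical
  obtain ⟨hc, ⟨φ⟩⟩ := hΔ
  let v0 : Fin n := ⟨0, by omega⟩
  obtain ⟨g0, hg0, hg0i⟩ := exists_coord (φ (dp hc v0))
  let g : realization Δ → ℝ := fun x => g0 (φ x)
  have hmaps : Set.MapsTo φ ({dp hc v0}ᶜ : Set (realization Δ)) {φ (dp hc v0)}ᶜ := by
    intro x hx hx'
    exact hx (φ.injective (Set.mem_singleton_iff.1 hx'))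
  have hg : ContinuousOn g {dp hc v0}ᶜ := hg0.comp φ.continuous.continuousOn hmaps
  have hgi : Set.InjOn g {dp hc v0}ᶜ := hg0i.comp φ.injective.injOn hmaps
  let t : Fin n → ℝ := fun v => g (dp hc v)
  let V : Finset (Fin n) := Finset.univ.erase v0
  have hVcard : V.card = n - 1 := by
    rw [Finset.card_erase_of_mem (Finset.mem_univ _), Finset.card_univ, Fintype.card_fin]
  have hmem : ∀ v, v ∈ V ↔ v ≠ v0 := by
    intro v; simp [V]
  have htinj : ∀ u ∈ V, ∀ v ∈ V, t u = t v → u = v := by
    intro u hu v hv huv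
    apply dp_injective hc
    apply hgi _ _ huv
    · intro h
      exact (hmem u).1 hu (dp_injective hc (Set.mem_singleton_iff.1 h))
    · intro h
      exact (hmem v).1 hv (dp_injective hc (Set.mem_singleton_iff.1 h))
  let r : Fin n → ℕ := fun v => (V.filter (fun w => t w < t v)).card
  have hrlt : ∀ v ∈ V, r v < n - 1 := by
    intro v hv
    rw [← hVcard]
    apply Finset.card_lt_card
    refine ⟨Finset.filter_subset _ _, fun h => ?_⟩
    have := h hv
    rw [Finset.mem_filter] at this
    exact lt_irrefl _ this.2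
  have hrmono : ∀ u ∈ V, ∀ v, t u < t v → r u < r v := by
    intro u hu v huv
    apply Finset.card_lt_card
    refine ⟨?_, fun h => ?_⟩
    · intro w hw
      rw [Finset.mem_filter] at hw ⊢
      exact ⟨hw.1, hw.2.trans huv⟩
    · have := h (Finset.mem_filter.2 ⟨hu, huv⟩)
      rw [Finset.mem_filter] at this
      exact lt_irrefl _ this.2
  have hrinj : ∀ u ∈ V, ∀ v ∈ V, r u = r v → u = v := by
    intro u hu v hv huv
    apply htinj u hu v hv
    rcases lt_trichotomy (t u) (t v) with h | h | h
    · have := hrmono u hu v h; omega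
    · exact h
    · have := hrmono v hv u h; omega
  have hedge : ∀ u ∈ V, ∀ v ∈ V, ({u, v} : Finset (Fin n)) ∈ Δ → t u < t v → r v = r u + 1 := by
    intro u hu v hv huv hlt
    have h1 : V.filter (fun w => t w < t v) = insert u (V.filter (fun w => t w < t u)) := by
      ext w
      simp only [Finset.mem_filter, Finset.mem_insert]
      constructor
      · rintro ⟨hw, hwv⟩
        by_contra hcon
        push Not at hcon
        have hwu : t u ≤ t w := hcon.2 hw
        have hne : t u ≠ t w := fun h => hcon.1 (htinj w hw u hu h.symm)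
        exact no_between hc v0 g hg hgi huv ((hmem u).1 hu) ((hmem v).1 hv) ((hmem w).1 hw)
          (lt_of_le_of_ne hwu hne) hwv
      · rintro (rfl | ⟨hw, hwu⟩)
        · exact ⟨hu, hlt⟩
        · exact ⟨hw, hwu.trans hlt⟩
    show (V.filter (fun w => t w < t v)).card = (V.filter (fun w => t w < t u)).card + 1
    rw [h1, Finset.card_insert_of_notMem]
    intro h
    rw [Finset.mem_filter] at h
    exact lt_irrefl _ h.2
  let O : Finset (Fin n) := V.filter (fun v => r v % 2 = 1)
  refine ⟨insert v0 O, ?_, ?_⟩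
  · intro s hs
    by_cases h0 : v0 ∈ s
    · exact ⟨v0, h0, Finset.mem_insert_self _ _⟩
    · have hsne : s.Nonempty := by
        by_contra hcon
        rw [Finset.not_nonempty_iff_eq_empty] at hcon
        have := hs.2 {v0} (hc.vert _) (by rw [hcon]; exact Finset.empty_subset _)
        rw [hcon] at this
        exact Finset.singleton_ne_empty _ this
      obtain ⟨u, hu⟩ := hsne
      have hs1 : s ≠ {u} := by
        rintro rfl
        exact facet_card hn hc φ u hs
      obtain ⟨v, hv, hvu⟩ : ∃ v ∈ s, v ≠ u := by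
        by_contra hcon
        push Not at hcon
        apply hs1
        ext w
        rw [Finset.mem_singleton]
        exact ⟨fun h => hcon w h, fun h => by rw [h]; exact hu⟩
      have huV : u ∈ V := (hmem u).2 (fun h => h0 (h ▸ hu))
      have hvV : v ∈ V := (hmem v).2 (fun h => h0 (h ▸ hv))
      have he : ({u, v} : Finset (Fin n)) ∈ Δ := by
        apply hc.down s hs.1
        intro w hw
        rw [Finset.mem_insert, Finset.mem_singleton] at hw
        rcases hw with rfl | rfl
        · exact hu
        · exact hv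
      have he' : ({v, u} : Finset (Fin n)) ∈ Δ := by rw [Finset.pair_comm]; exact he
      have hpar : r u % 2 = 1 ∨ r v % 2 = 1 := by
        rcases lt_trichotomy (t u) (t v) with h | h | h
        · have := hedge u huV v hvV he h; omega
        · exact absurd (htinj u huV v hvV h).symm hvu
        · have := hedge v hvV u huV he' h; omega
      rcases hpar with h | h
      · exact ⟨u, hu, Finset.mem_insert_of_mem (Finset.mem_filter.2 ⟨huV, h⟩)⟩
      · exact ⟨v, hv, Finset.mem_insert_of_mem (Finset.mem_filter.2 ⟨hvV, h⟩)⟩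
  · have h1 : (insert v0 O).card ≤ O.card + 1 := Finset.card_insert_le _ _
    have h2 : O.card ≤ ((Finset.range ((n - 1) / 2)).image (fun i => 2 * i + 1)).card := by
      apply Finset.card_le_card_of_injOn r
      · intro v hv
        have hv' := Finset.mem_filter.1 (Finset.mem_coe.1 hv)
        have h3 := hrlt v hv'.1
        rw [Finset.coe_image, Set.mem_image]
        refine ⟨r v / 2, ?_, ?_⟩
        · rw [Finset.coe_range, Set.mem_Iio]
          omega
        · have := hv'.2
          show 2 * (r v / 2) + 1 = r v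
          omega
      · intro u hu v hv huv
        exact hrinj u (Finset.mem_filter.1 (Finset.mem_coe.1 hu)).1 v
          (Finset.mem_filter.1 (Finset.mem_coe.1 hv)).1 huv
    have h3 : ((Finset.range ((n - 1) / 2)).image (fun i => 2 * i + 1)).card ≤ (n - 1) / 2 := by
      refine Finset.card_image_le.trans ?_
      rw [Finset.card_range]
    omega

lemma ratio_le {n : ℕ} (hn : 2 ≤ n) {Δ : Set (Finset (Fin n))} (hΔ : IsSimplicialSphere 2 Δ) :
    transversalRatio Δ ≤ 1 / 2 + 1 / (2 * (n : ℝ)) := by
  obtain ⟨W, hW, hcard⟩ := exists_transversal hn hΔ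
  have hnR : (0 : ℝ) < n := by exact_mod_cast (by omega : 0 < n)
  have h1 : transversalNumber Δ ≤ W.card := Nat.sInf_le ⟨W, hW, rfl⟩
  have h2 : 2 * (transversalNumber Δ : ℝ) ≤ n + 1 := by
    exact_mod_cast (by omega : 2 * transversalNumber Δ ≤ n + 1)
  unfold transversalRatio
  rw [div_le_iff₀ hnR]
  have h3 : (1 / 2 + 1 / (2 * (n : ℝ))) * n = (n + 1) / 2 := by field_simp
  rw [h3]
  linarith

lemma limsup_le_half (A : ℕ → Set ℝ) (h0 : ∀ n, ∀ t ∈ A n, 0 ≤ t)
    (hle : ∀ n, 2 ≤ n → ∀ t ∈ A n, t ≤ 1 / 2 + 1 / (2 * (n : ℝ))) :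
    Filter.limsup (fun n => sSup (A n)) Filter.atTop ≤ 1 / 2 := by
  apply le_of_forall_pos_le_add
  intro ε hε
  have hcob : Filter.IsCoboundedUnder (· ≤ ·) Filter.atTop (fun n => sSup (A n)) :=
    Filter.IsCoboundedUnder.of_frequently_ge
      (Filter.Frequently.of_forall (fun n => Real.sSup_nonneg (h0 n)))
  apply Filter.limsup_le_of_le hcob
  obtain ⟨q, hq⟩ := exists_nat_gt (1 / ε)
  have hqpos : (0 : ℝ) < q := lt_trans (by positivity) hq
  filter_upwards [Filter.eventually_ge_atTop (q + 2)] with n hn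
  have hnR : (q : ℝ) + 2 ≤ n := by exact_mod_cast hn
  have hn0 : (0 : ℝ) < n := by linarith
  have h1 : 1 / (2 * (n : ℝ)) ≤ ε := by
    rw [div_le_iff₀ (by positivity)]
    rw [div_lt_iff₀ hε] at hq
    nlinarith
  apply Real.sSup_le
  · intro t ht
    have := hle n (by omega) t ht
    linarith
  · linarith

theorem tauS2_le : tauS 2 ≤ 1 / 2 := by
  apply limsup_le_half
  · rintro n t ⟨Δ, hΔ, rfl⟩
    exact transversalRatio_nonneg _
  · rintro n hn t ⟨Δ, hΔ, rfl⟩
    exact ratio_le hn hΔ

theorem tauP2_le : tauP 2 ≤ 1 / 2 := by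
  apply limsup_le_half
  · rintro n t ⟨p, hp, rfl⟩
    exact transversalRatio_nonneg _
  · rintro n hn t ⟨p, hp, rfl⟩
    exact ratio_le hn (isSimplicialSphere_boundary (by norm_num) hp)

end Pool.Agent.TH373.Sphere1
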