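import Mathlib
import Pool.Agent.TH373.RateMain
import Pool.Agent.TH373.Chain3
import Pool.Agent.TH373.Sphere1

/-!
# Limits and monotonicity of the transversal ratios
-/

set_option autoImplicit false

namespace Pool.Agent.TH373.Rate

open Filter Topology Pool.Agent.H523R3.Trans

/-- The largest transversal ratio of a simplicial `d`-polytope with `n` vertices (`0` if there is
none). -/
noncomputable def maxRatioP (d n : ℕ) : ℝ :=
  sSup {t : ℝ | ∃ p : Fin n → E d, IsSimplicialPolytope d p ∧ t = transversalRatio (boundary p)}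

/-- The largest transversal ratio of a simplicial `(d-1)`-sphere with `n` vertices (`0` if there is
none). -/
noncomputable def maxRatioS (d n : ℕ) : ℝ :=
  sSup {t : ℝ | ∃ Δ : Set (Finset (Fin n)), IsSimplicialSphere d Δ ∧ t = transversalRatio Δ}

lemma maxRatioP_le_one {d : ℕ} (hd : 0 < d) (n : ℕ) : maxRatioP d n ≤ 1 := by
  apply Real.sSup_le _ zero_le_one
  rintro t ⟨p, hp, rfl⟩
  exact transversalRatio_le_one (isComplex_boundary hd hp)

lemma maxRatioS_le_one (d n : ℕ) : maxRatioS d n ≤ 1 := by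
  apply Real.sSup_le _ zero_le_one
  rintro t ⟨p, hp, rfl⟩
  exact transversalRatio_le_one hp.1

lemma le_maxRatioP {d n : ℕ} (hd : 0 < d) {p : Fin n → E d} (hp : IsSimplicialPolytope d p) :
    transversalRatio (boundary p) ≤ maxRatioP d n := by
  refine le_csSup ⟨1, ?_⟩ ⟨p, hp, rfl⟩
  rintro t ⟨p, hp, rfl⟩
  exact transversalRatio_le_one (isComplex_boundary hd hp)

lemma le_maxRatioS {d n : ℕ} {Δ : Set (Finset (Fin n))} (hp : IsSimplicialSphere d Δ) :
    transversalRatio Δ ≤ maxRatioS d n := by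
  refine le_csSup ⟨1, ?_⟩ ⟨Δ, hp, rfl⟩
  rintro t ⟨p, hp, rfl⟩
  exact transversalRatio_le_one hp.1

lemma tendsto_rate (d : ℕ) (C : ℝ) :
    Tendsto (fun n : ℕ => 1 - C * (Real.log n) ^ (-(1 : ℝ) / (d + 2))) atTop (𝓝 1) := by
  have h1 : Tendsto (fun n : ℕ => Real.log n) atTop atTop :=
    Real.tendsto_log_atTop.comp tendsto_natCast_atTop_atTop
  have h2 : Tendsto (fun x : ℝ => x ^ (-((1 : ℝ) / (d + 2)))) atTop (𝓝 0) :=
    tendsto_rpow_neg_atTop (by positivity)
  have h3 := (h2.comp h1).const_mul C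
  have h4 := h3.const_sub 1
  simp only [mul_zero, sub_zero, Function.comp_def] at h4
  simp_rw [neg_div]
  exact h4

theorem tendsto_maxRatioP {d : ℕ} (hd : 4 ≤ d) : Tendsto (maxRatioP d) atTop (𝓝 1) := by
  obtain ⟨C, hC, h⟩ := rate hd
  apply tendsto_of_tendsto_of_tendsto_of_le_of_le' (tendsto_rate d C) tendsto_const_nhds
  · filter_upwards [eventually_ge_atTop (d + 1)] with n hn
    obtain ⟨p, hp, hr⟩ := h n hn
    exact hr.trans (le_maxRatioP (by omega) hp)
  · exact Eventually.of_forall (fun n => maxRatioP_le_one (by omega) n)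

theorem tendsto_maxRatioS {d : ℕ} (hd : 4 ≤ d) : Tendsto (maxRatioS d) atTop (𝓝 1) := by
  obtain ⟨C, hC, h⟩ := rate hd
  apply tendsto_of_tendsto_of_tendsto_of_le_of_le' (tendsto_rate d C) tendsto_const_nhds
  · filter_upwards [eventually_ge_atTop (d + 1)] with n hn
    obtain ⟨p, hp, hr⟩ := h n hn
    exact hr.trans (le_maxRatioS (isSimplicialSphere_boundary (by omega) hp))
  · exact Eventually.of_forall (fun n => maxRatioS_le_one d n)

lemma limsup_le_one (a : ℕ → ℝ) (h0 : ∀ n, 0 ≤ a n) (h1 : ∀ n, a n ≤ 1) :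
    limsup a atTop ≤ 1 :=
  limsup_le_of_le (IsCoboundedUnder.of_frequently_ge (Frequently.of_forall h0))
    (Eventually.of_forall h1)

lemma tauP_le_one {d : ℕ} (hd : 0 < d) : tauP d ≤ 1 := by
  apply limsup_le_one
  · intro n
    apply Real.sSup_nonneg
    rintro t ⟨p, hp, rfl⟩
    exact transversalRatio_nonneg _
  · exact fun n => maxRatioP_le_one hd n

lemma tauS_le_one (d : ℕ) : tauS d ≤ 1 := by
  apply limsup_le_one
  · intro n
    apply Real.sSup_nonneg
    rintro t ⟨p, hp, rfl⟩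
    exact transversalRatio_nonneg _
  · exact fun n => maxRatioS_le_one d n

/-- Both sequences of asymptotic transversal ratios are weakly increasing. -/
theorem monotone_tau (d : ℕ) (hd : 2 ≤ d) : tauP d ≤ tauP (d + 1) ∧ tauS d ≤ tauS (d + 1) := by
  rcases Nat.lt_or_ge d 3 with h | h
  · have : d = 2 := by omega
    subst this
    exact ⟨Sphere1.tauP2_le.trans Chain3.half_le_tauP3, Sphere1.tauS2_le.trans Chain3.half_le_tauS3⟩
  · rw [tauP_eq_one (by omega : 4 ≤ d + 1), tauS_eq_one (by omega : 4 ≤ d + 1)]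
    exact ⟨tauP_le_one (by omega), tauS_le_one d⟩

end Pool.Agent.TH373.Rate
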