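import Mathlib

/-!
# The octahedron `{x ∈ [0,1]^3 : 1 ≤ x₀+x₁+x₂ ≤ 2}` with the cyclic action of `ℤ/3`
-/

set_option autoImplicit false
open scoped Pointwise

namespace Pool.Agent.TH373.Oct

open Finset

/-- cast of an integer vector -/
def cst (x : Fin 3 → ℤ) : Fin 3 → ℝ := fun j => ((x j : ℤ) : ℝ)

/-- the vertex set -/
def V : Finset (Fin 3 → ℤ) :=
  {![1,0,0], ![0,1,0], ![0,0,1], ![1,1,0], ![1,0,1], ![0,1,1]}

/-- the six vertices as a family -/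
def vt : Fin 6 → (Fin 3 → ℤ) :=
  ![![1,0,0], ![0,1,0], ![0,0,1], ![0,1,1], ![1,0,1], ![1,1,0]]

theorem vt_mem (i : Fin 6) : vt i ∈ V := by
  fin_cases i <;> decide

theorem mem_V_iff (v : Fin 3 → ℤ) (hv : v ∈ V) : ∃ i, v = vt i := by
  simp only [V, Finset.mem_insert, Finset.mem_singleton] at hv
  rcases hv with rfl | rfl | rfl | rfl | rfl | rfl
  · exact ⟨0, rfl⟩
  · exact ⟨1, rfl⟩
  · exact ⟨2, rfl⟩
  · exact ⟨5, rfl⟩
  · exact ⟨4, rfl⟩
  · exact ⟨3, rfl⟩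

/-- the octahedron -/
def P : Set (Fin 3 → ℝ) := convexHull ℝ (cst '' (V : Set (Fin 3 → ℤ)))

/-- explicit inequalities -/
def Q : Set (Fin 3 → ℝ) :=
  {x | (∀ i, 0 ≤ x i) ∧ (∀ i, x i ≤ 1) ∧ 1 ≤ x 0 + x 1 + x 2 ∧ x 0 + x 1 + x 2 ≤ 2}

theorem convex_Q : Convex ℝ Q := by
  intro x hx y hy a b ha hb hab
  obtain ⟨hx1, hx2, hx3, hx4⟩ := hx
  obtain ⟨hy1, hy2, hy3, hy4⟩ := hy
  refine ⟨fun i => ?_, fun i => ?_, ?_, ?_⟩ <;>
    simp only [Pi.add_apply, Pi.smul_apply, smul_eq_mul]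
  · have := mul_nonneg ha (hx1 i)
    have := mul_nonneg hb (hy1 i)
    linarith
  · have := mul_le_mul_of_nonneg_left (hx2 i) ha
    have := mul_le_mul_of_nonneg_left (hy2 i) hb
    linarith
  · have := mul_le_mul_of_nonneg_left hx3 ha
    have := mul_le_mul_of_nonneg_left hy3 hb
    linarith
  · have := mul_le_mul_of_nonneg_left hx4 ha
    have := mul_le_mul_of_nonneg_left hy4 hb
    linarith

theorem P_sub_Q : P ⊆ Q := by
  apply convexHull_min _ convex_Q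
  rintro _ ⟨v, hv, rfl⟩
  obtain ⟨i, rfl⟩ := mem_V_iff v hv
  fin_cases i <;>
    (refine ⟨fun j => ?_, fun j => ?_, ?_, ?_⟩ <;> (try fin_cases j) <;>
      simp [cst, vt, Matrix.cons_val_two] <;> norm_num)

theorem Q_sub_P : Q ⊆ P := by
  intro x hx
  obtain ⟨h0, h1, hs, ht⟩ := hx
  -- barycentric data
  set a : Fin 3 → ℝ := ![1 - x 1 - x 2, 1 - x 0 - x 2, 1 - x 0 - x 1] with ha
  have hsum : |a 0| + |a 1| + |a 2| ≤ 1 := by
    have e0 : a 0 = 1 - x 1 - x 2 := rfl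
    have e1 : a 1 = 1 - x 0 - x 2 := rfl
    have e2 : a 2 = 1 - x 0 - x 1 := rfl
    have := h0 0; have := h0 1; have := h0 2
    have := h1 0; have := h1 1; have := h1 2
    rcases abs_cases (a 0) with ⟨q0, _⟩ | ⟨q0, _⟩ <;>
    rcases abs_cases (a 1) with ⟨q1, _⟩ | ⟨q1, _⟩ <;>
    rcases abs_cases (a 2) with ⟨q2, _⟩ | ⟨q2, _⟩ <;>
    rw [q0, q1, q2] <;> linarith
  set r : ℝ := (1 - (|a 0| + |a 1| + |a 2|)) / 6 with hr
  have hr0 : 0 ≤ r := by rw [hr]; linarith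
  let w : Fin 6 → ℝ := ![(|a 0| + a 0) / 2 + r, (|a 1| + a 1) / 2 + r, (|a 2| + a 2) / 2 + r,
    (|a 0| - a 0) / 2 + r, (|a 1| - a 1) / 2 + r, (|a 2| - a 2) / 2 + r]
  have hw0 : ∀ i ∈ (Finset.univ : Finset (Fin 6)), 0 ≤ w i := by
    intro i _
    have b0 := neg_abs_le (a 0); have b1 := neg_abs_le (a 1); have b2 := neg_abs_le (a 2)
    have c0 := le_abs_self (a 0); have c1 := le_abs_self (a 1); have c2 := le_abs_self (a 2)
    fin_cases i <;> simp [w] <;> linarith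
  have hw1 : ∑ i ∈ (Finset.univ : Finset (Fin 6)), w i = 1 := by
    simp only [Fin.sum_univ_succ, w]
    simp
    rw [hr]; ring
  have hz : ∀ i ∈ (Finset.univ : Finset (Fin 6)), cst (vt i) ∈ P := fun i _ =>
    subset_convexHull ℝ _ ⟨vt i, vt_mem i, rfl⟩
  have hmem := (convex_convexHull ℝ (cst '' (V : Set (Fin 3 → ℤ)))).sum_mem hw0 hw1 hz
  have hx : ∑ i ∈ (Finset.univ : Finset (Fin 6)), w i • cst (vt i) = x := by
    funext j
    simp only [Finset.sum_apply, Pi.smul_apply, smul_eq_mul, Fin.sum_univ_succ, w]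
    fin_cases j <;> simp [cst, vt, ha] <;> rw [hr] <;> simp [ha] <;> ring
  rw [hx] at hmem
  exact hmem

theorem P_eq_Q : P = Q := Set.Subset.antisymm P_sub_Q Q_sub_P

/-- lattice points in the dilates -/
theorem mem_smul_P (m : ℕ) (x : Fin 3 → ℤ) :
    cst x ∈ (m : ℝ) • P ↔ (∀ i, 0 ≤ x i) ∧ (∀ i, x i ≤ m) ∧ (m : ℤ) ≤ x 0 + x 1 + x 2 ∧
      x 0 + x 1 + x 2 ≤ 2 * m := by
  rw [P_eq_Q, Set.mem_smul_set]
  constructor
  · rintro ⟨y, ⟨h0, h1, h2, h3⟩, hy⟩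
    have hyi : ∀ i, (m : ℝ) * y i = (x i : ℝ) := fun i => congrFun hy i
    have hm : (0 : ℝ) ≤ m := Nat.cast_nonneg m
    refine ⟨fun i => ?_, fun i => ?_, ?_, ?_⟩
    · have : (0 : ℝ) ≤ (x i : ℝ) := by rw [← hyi]; exact mul_nonneg hm (h0 i)
      exact_mod_cast this
    · have : (x i : ℝ) ≤ (m : ℝ) := by
        rw [← hyi]; have := mul_le_mul_of_nonneg_left (h1 i) hm; linarith
      exact_mod_cast this
    · have : (m : ℝ) ≤ (x 0 : ℝ) + x 1 + x 2 := by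
        rw [← hyi, ← hyi, ← hyi]; have := mul_le_mul_of_nonneg_left h2 hm; linarith
      exact_mod_cast this
    · have : (x 0 : ℝ) + x 1 + x 2 ≤ 2 * (m : ℝ) := by
        rw [← hyi, ← hyi, ← hyi]; have := mul_le_mul_of_nonneg_left h3 hm; linarith
      exact_mod_cast this
  · rintro ⟨h0, h1, h2, h3⟩
    have g0 : ∀ i, (0 : ℝ) ≤ (x i : ℝ) := fun i => by exact_mod_cast h0 i
    have g1 : ∀ i, (x i : ℝ) ≤ (m : ℝ) := fun i => by exact_mod_cast h1 i
    have g2 : (m : ℝ) ≤ (x 0 : ℝ) + x 1 + x 2 := by exact_mod_cast h2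
    have g3 : (x 0 : ℝ) + x 1 + x 2 ≤ 2 * (m : ℝ) := by exact_mod_cast h3
    rcases Nat.eq_zero_or_pos m with hm | hm
    · subst hm
      refine ⟨![1, 0, 0], ?_, ?_⟩
      · refine ⟨fun i => ?_, fun i => ?_, ?_, ?_⟩ <;> (try fin_cases i) <;>
          simp [Matrix.cons_val_two]
      · funext i
        have a := g0 i
        have b := g1 i
        simp only [Nat.cast_zero] at b
        have : (x i : ℝ) = 0 := le_antisymm b a
        show ((0 : ℕ) : ℝ) * _ = (x i : ℝ)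
        rw [this]; simp
    · have hm' : (0 : ℝ) < m := by exact_mod_cast hm
      refine ⟨fun i => (x i : ℝ) / m, ⟨fun i => div_nonneg (g0 i) hm'.le,
        fun i => (div_le_one hm').2 (g1 i), ?_, ?_⟩, ?_⟩
      · rw [← add_div, ← add_div, le_div_iff₀ hm']; linarith
      · rw [← add_div, ← add_div, div_le_iff₀ hm']; linarith
      · funext i
        show (m : ℝ) * ((x i : ℝ) / m) = (x i : ℝ)
        field_simp

end Pool.Agent.TH373.Oct
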