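import Mathlib

/-!
# Counting lattice points of the octahedron and the power series
-/

set_option autoImplicit false

namespace Pool.Agent.TH373.Oct

open Finset

/-- The double sum of `|a - b|`. -/
def D (m : ℕ) : ℤ := ∑ a ∈ range (m + 1), ∑ b ∈ range (m + 1), |(a : ℤ) - b|

theorem sum_lin (m : ℕ) : 2 * ∑ a ∈ range (m + 1), ((m : ℤ) + 1 - a) = (m + 1) * (m + 2) := by
  have h : ∀ k : ℕ, 2 * ∑ a ∈ range k, ((m : ℤ) + 1 - a) = k * (2 * m + 3 - k) := by
    intro k
    induction k with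
    | zero => simp
    | succ k ih =>
      rw [Finset.sum_range_succ, mul_add, ih]
      push_cast
      ring
  rw [h (m + 1)]
  push_cast
  ring

theorem D_succ (m : ℕ) : D (m + 1) = D m + (m + 1) * (m + 2) := by
  unfold D
  rw [Finset.sum_range_succ]
  have h1 : ∀ a ∈ range (m + 1), ∑ b ∈ range (m + 1 + 1), |(a : ℤ) - b| =
      ∑ b ∈ range (m + 1), |(a : ℤ) - b| + ((m : ℤ) + 1 - a) := by
    intro a ha
    rw [Finset.sum_range_succ]
    have : a < m + 1 := Finset.mem_range.1 ha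
    have h2 : |(a : ℤ) - ((m + 1 : ℕ) : ℤ)| = (m : ℤ) + 1 - a := by
      rw [abs_of_nonpos] <;> push_cast <;> omega
    rw [h2]
  have h3 : ∑ b ∈ range (m + 1 + 1), |((m + 1 : ℕ) : ℤ) - b| =
      ∑ b ∈ range (m + 1), ((m : ℤ) + 1 - b) := by
    rw [Finset.sum_range_succ]
    have : ∀ b ∈ range (m + 1), |((m + 1 : ℕ) : ℤ) - b| = (m : ℤ) + 1 - b := by
      intro b hb
      have : b < m + 1 := Finset.mem_range.1 hb
      rw [abs_of_nonneg] <;> push_cast <;> omega
    rw [Finset.sum_congr rfl this]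
    simp
  rw [Finset.sum_congr rfl h1, h3, Finset.sum_add_distrib]
  have := sum_lin m
  linarith

theorem D_eq (m : ℕ) : 3 * D m = m * (m + 1) * (m + 2) := by
  induction m with
  | zero => simp [D]
  | succ m ih =>
    rw [D_succ, mul_add, ih]
    push_cast
    ring

/-- the lattice points of the `m`-th dilate -/
def L (m : ℕ) : Set (Fin 3 → ℤ) :=
  {x | (∀ i, 0 ≤ x i) ∧ (∀ i, x i ≤ m) ∧ (m : ℤ) ≤ x 0 + x 1 + x 2 ∧ x 0 + x 1 + x 2 ≤ 2 * m}

/-- parametrisation by a finite set -/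
def F (m : ℕ) : Finset (Σ _ : ℕ × ℕ, ℕ) :=
  ((range (m + 1)) ×ˢ (range (m + 1))).sigma (fun p => Icc (p.1 - p.2) (m - (p.2 - p.1)))

theorem card_F (m : ℕ) : ((F m).card : ℤ) = (m + 1) ^ 3 - D m := by
  unfold F
  rw [Finset.card_sigma, Finset.sum_product]
  push_cast
  have : ∀ a ∈ range (m + 1), ∑ b ∈ range (m + 1), (((Icc (a - b) (m - (b - a))).card : ℕ) : ℤ) =
      ∑ b ∈ range (m + 1), (((m : ℤ) + 1) - |(a : ℤ) - b|) := by
    intro a ha
    apply Finset.sum_congr rfl
    intro b hb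
    have ha' : a < m + 1 := Finset.mem_range.1 ha
    have hb' : b < m + 1 := Finset.mem_range.1 hb
    rw [Nat.card_Icc]
    rcases le_total a b with h | h
    · rw [abs_of_nonpos (by omega)]
      omega
    · rw [abs_of_nonneg (by omega)]
      omega
  rw [Finset.sum_congr rfl this]
  unfold D
  simp only [Finset.sum_sub_distrib, Finset.sum_const, Finset.card_range]
  simp
  ring

theorem ncard_L (m : ℕ) : ((L m).ncard : ℤ) = (m + 1) ^ 3 - D m := by
  rw [← card_F, ← Set.ncard_coe_finset]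
  congr 1
  symm
  apply Set.ncard_congr (fun (q : Σ _ : ℕ × ℕ, ℕ) _ => ![(m : ℤ) - q.1.1, q.1.2, q.2])
  · rintro ⟨⟨a, b⟩, c⟩ hq
    simp only [F, Finset.coe_sigma, Set.mem_sigma_iff, Finset.coe_product, Set.mem_prod,
      Finset.mem_coe, Finset.mem_range, Finset.mem_Icc] at hq
    obtain ⟨⟨ha, hb⟩, hc1, hc2⟩ := hq
    refine ⟨fun i => ?_, fun i => ?_, ?_, ?_⟩
    · fin_cases i <;> simp <;> omega
    · fin_cases i <;> simp <;> omega
    · simp; omega
    · simp; omega
  · rintro ⟨⟨a, b⟩, c⟩ ⟨⟨a', b'⟩, c'⟩ _ _ h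
    have h0 := congrFun h 0
    have h1 := congrFun h 1
    have h2 := congrFun h 2
    simp at h0 h1 h2
    subst h0; subst h1; subst h2; rfl
  · intro x hx
    obtain ⟨h0, h1, h2, h3⟩ := hx
    have a0 := h0 0; have a1 := h0 1; have a2 := h0 2
    have b0 := h1 0; have b1 := h1 1; have b2 := h1 2
    refine ⟨⟨⟨((m : ℤ) - x 0).toNat, (x 1).toNat⟩, (x 2).toNat⟩, ?_, ?_⟩
    · simp only [F, Finset.coe_sigma, Set.mem_sigma_iff, Finset.coe_product, Set.mem_prod,
        Finset.mem_coe, Finset.mem_range, Finset.mem_Icc]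
      omega
    · funext i
      fin_cases i <;> simp <;> omega

/-- fixed points -/
def L1 (m : ℕ) : Set (Fin 3 → ℤ) := {x | x ∈ L m ∧ x 0 = x 1 ∧ x 1 = x 2}

/-- number of fixed points -/
def f (m : ℕ) : ℕ := 2 * m / 3 + 1 - (m + 2) / 3

theorem ncard_L1 (m : ℕ) : (L1 m).ncard = f m := by
  have : L1 m = (fun a : ℕ => (fun _ : Fin 3 => (a : ℤ))) '' ((Icc ((m + 2) / 3) (2 * m / 3) :
      Finset ℕ) : Set ℕ) := by
    ext x
    constructor
    · rintro ⟨⟨h0, h1, h2, h3⟩, h4, h5⟩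
      refine ⟨(x 0).toNat, ?_, ?_⟩
      · have a0 := h0 0
        simp only [Finset.coe_Icc, Set.mem_Icc]
        omega
      · have a0 := h0 0
        funext i
        fin_cases i <;> simp <;> omega
    · rintro ⟨a, ha, rfl⟩
      simp only [Finset.coe_Icc, Set.mem_Icc] at ha
      refine ⟨⟨fun i => ?_, fun i => ?_, ?_, ?_⟩, rfl, rfl⟩
      · positivity
      · show (a : ℤ) ≤ m; omega
      · show (m : ℤ) ≤ a + a + a; omega
      · show (a : ℤ) + a + a ≤ 2 * m; omega
  rw [this, Set.ncard_image_of_injective, Set.ncard_coe_finset, Nat.card_Icc, f]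
  intro a b hab
  have := congrFun hab 0
  simpa using this

open PowerSeries in
theorem mk_mul_one_sub (u v : ℕ → ℤ) (h0 : v 0 = u 0) (hs : ∀ m, v (m + 1) = u (m + 1) - u m) :
    PowerSeries.mk u * (1 - PowerSeries.X) = PowerSeries.mk v := by
  ext n
  rw [mul_sub, mul_one, map_sub]
  cases n with
  | zero => simp [h0]
  | succ n => rw [PowerSeries.coeff_succ_mul_X]; simp [hs]

theorem mk_mul_one_sub_cube (u v : ℕ → ℤ) (h0 : v 0 = u 0) (h1 : v 1 = u 1) (h2 : v 2 = u 2)
    (hs : ∀ m, v (m + 3) = u (m + 3) - u m) :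
    PowerSeries.mk u * (1 - PowerSeries.X ^ 3) = PowerSeries.mk v := by
  ext n
  rw [mul_sub, mul_one, map_sub, PowerSeries.coeff_mul_X_pow']
  rcases n with _ | _ | _ | n
  · simp [h0]
  · simp [h1]
  · simp [h2]
  · simp [hs]

/-- `1 + 2 z + z^2` -/
theorem series_one (u : ℕ → ℤ) (hu : ∀ m : ℕ, u m = (m + 1) ^ 3 - D m) :
    PowerSeries.mk u * (1 - PowerSeries.X) * (1 - PowerSeries.X) ^ 3 =
      PowerSeries.mk (fun n => if n = 0 then 1 else if n = 1 then 2 else if n = 2 then 1 else 0) := by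
  have e : ∀ m : ℕ, u (m + 1) = u m + (2 * (m + 1) ^ 2 + 2 * (m + 1) + 1) := by
    intro m
    rw [hu, hu, D_succ]
    push_cast
    ring
  have e0 : u 0 = 1 := by rw [hu]; simp [D]
  rw [mk_mul_one_sub u (fun m => 2 * m ^ 2 + 2 * m + 1) (by simp [e0])
    (fun m => by rw [e]; push_cast; ring)]
  rw [pow_succ, pow_succ, pow_one, ← mul_assoc, ← mul_assoc]
  rw [mk_mul_one_sub _ (fun m => if m = 0 then 1 else 4 * m) (by simp)
    (fun m => by simp; ring)]
  rw [mk_mul_one_sub _ (fun m => if m = 0 then 1 else if m = 1 then 3 else 4) (by simp)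
    (fun m => by
      rcases m with _ | m
      · simp
      · simp; ring)]
  rw [mk_mul_one_sub _ (fun n => if n = 0 then 1 else if n = 1 then 2 else if n = 2 then 1 else 0)
    (by simp) (fun m => by
      rcases m with _ | _ | m
      · simp
      · simp
      · simp)]

/-- `1 - z + z^2` -/
theorem series_two (u : ℕ → ℤ) (hu : ∀ m : ℕ, u m = f m) :
    PowerSeries.mk u * (1 - PowerSeries.X) * (1 - PowerSeries.X ^ 3) =
      PowerSeries.mk (fun n => if n = 0 then 1 else if n = 1 then -1 else if n = 2 then 1 else 0) := by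
  have e : ∀ m : ℕ, u (m + 3) = u m + 1 := by
    intro m
    rw [hu, hu]
    unfold f
    have h1 : 2 * (m + 3) / 3 = 2 * m / 3 + 2 := by omega
    have h2 : (m + 3 + 2) / 3 = (m + 2) / 3 + 1 := by omega
    have h3 : (m + 2) / 3 ≤ 2 * m / 3 + 1 := by omega
    rw [h1, h2]
    omega
  have e0 : u 0 = 1 := by rw [hu]; rfl
  have e1 : u 1 = 0 := by rw [hu]; rfl
  have e2 : u 2 = 1 := by rw [hu]; rfl
  rw [mul_right_comm]
  rw [mk_mul_one_sub_cube u (fun m => if m = 1 then 0 else 1) (by simp [e0]) (by simp [e1])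
    (by simp [e2]) (fun m => by
      rcases m with _ | m
      · rw [show u (0 + 3) = u 0 + 1 from e 0]; simp
      · rw [e]; simp)]
  rw [mk_mul_one_sub _ (fun n => if n = 0 then 1 else if n = 1 then -1 else if n = 2 then 1 else 0)
    (by simp) (fun m => by
      rcases m with _ | _ | m
      · simp
      · simp
      · simp)]

end Pool.Agent.TH373.Oct
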